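import Pool.Agent.Helper73.KT.Ops

/-!
The subspaces `pairs` are stable under the Lie algebra and under the transpositions of equal factors.
-/

set_option autoImplicit false

open Matrix H77MT Pool.Agent.Helper79.KN Pool.Agent.Helper33.KN
open Pool.Agent.Helper73.KT

namespace Pool.Agent.Helper8.KT

variable {X n K ι : Type} [Fintype n] [DecidableEq n] [DecidableEq X] [Field K] [Fintype ι] [DecidableEq ι]

/-- the term of the factor `a` in `lie` -/
def lt8 (i : ι → X × Bool) (x : X) (c d : n) (M : (ι → n) → K) (a : ι) : (ι → n) → K := fun s =>
  if (i a).1 = x then
    (if (i a).2 then (if s a = c then M (Function.update s a d) else 0)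
      else (if s a = d then -M (Function.update s a c) else 0)) else 0

theorem lie_eq8 (i : ι → X × Bool) (x : X) (c d : n) (M : (ι → n) → K) : lie i x c d M = ∑ a, lt8 i x c d M a := by
  funext s
  rw [Finset.sum_apply]
  rfl

theorem pairs_sw (i : ι → X × Bool) (q : ℕ) (a b : ι) (h : i a = i b) : ∀ M ∈ pairs K n i q, sw a b M ∈ pairs K n i q := by
  have hi : ∀ c, i (Equiv.swap a b c) = i c := by
    intro c
    by_cases h1 : c = a
    · rw [h1, Equiv.swap_apply_left, h]
    · by_cases h2 : c = b
      · rw [h2, Equiv.swap_apply_right, h]
      · rw [Equiv.swap_apply_of_ne_of_ne h1 h2]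
  have hle : pairs K n i q ≤ (pairs K n i q).comap (sw a b) := by
    refine Submodule.span_le.2 ?_
    rintro M ⟨f, g, hinj, hlab, N, hN, hM⟩
    show sw a b M ∈ pairs K n i q
    refine Submodule.subset_span ⟨fun j => Equiv.swap a b (f j), fun j => Equiv.swap a b (g j), ?_, ?_,
      fun s => N (s ∘ Equiv.swap a b), ?_, ?_⟩
    · have e : Sum.elim (fun j => Equiv.swap a b (f j)) (fun j => Equiv.swap a b (g j)) =
          Equiv.swap a b ∘ Sum.elim f g := by
        funext z
        cases z <;> rfl
      rw [e]
      exact (Equiv.swap a b).injective.comp hinj
    · intro j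
      rw [hi, hi, hlab]
    · intro s t hst
      refine hN _ _ fun e he => ?_
      refine hst (Equiv.swap a b e) fun j => ⟨fun h1 => (he j).1 ((Equiv.swap a b).injective h1),
        fun h1 => (he j).2 ((Equiv.swap a b).injective h1)⟩
    · intro s
      show M (s ∘ Equiv.swap a b) = _
      rw [hM]
      rfl
  exact fun M hM => hle hM

theorem pairs_lie (i : ι → X × Bool) (q : ℕ) (x : X) (c d : n) : ∀ M ∈ pairs K n i q, lie i x c d M ∈ pairs K n i q := by
  have hle : pairs K n i q ≤ (pairs K n i q).comap (lie i x c d) := by
    refine Submodule.span_le.2 ?_
    rintro M ⟨f, g, hinj, hlab, N, hN, hM⟩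
    show lie i x c d M ∈ pairs K n i q
    -- the factors which are not paired
    have hfree : ∀ a, (∀ j, a ≠ f j ∧ a ≠ g j) → lt8 i x c d M a ∈ pairs K n i q := by
      intro a ha
      refine Submodule.subset_span ⟨f, g, hinj, hlab, lt8 i x c d N a, ?_, ?_⟩
      · intro s t hst
        have h1 : s a = t a := hst a ha
        have h2 : ∀ e : n, N (Function.update s a e) = N (Function.update t a e) := by
          intro e
          refine hN _ _ fun b hb => ?_
          by_cases h3 : b = a
          · rw [h3, Function.update_self, Function.update_self]
          · rw [Function.update_of_ne h3, Function.update_of_ne h3]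
            exact hst b hb
        unfold lt8
        rw [h1, h2, h2]
      · intro s
        have h2 : ∀ e : n, M (Function.update s a e) = if ∀ j, s (f j) = s (g j) then N (Function.update s a e) else 0 := by
          intro e
          rw [hM]
          have h3 : (∀ j, Function.update s a e (f j) = Function.update s a e (g j)) ↔ ∀ j, s (f j) = s (g j) := by
            refine forall_congr' fun j => ?_
            rw [Function.update_of_ne (ha j).1.symm, Function.update_of_ne (ha j).2.symm]
          simp only [h3]
        unfold lt8
        rw [h2, h2]
        split_ifs <;> simp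
    -- the paired factors
    have hpair : ∀ j, lt8 i x c d M (f j) + lt8 i x c d M (g j) = 0 := by
      intro j
      have hfg : f j ≠ g j := by
        intro h1
        have := @hinj (Sum.inl j) (Sum.inr j) h1
        exact absurd this (by simp)
      have hff : ∀ k, k ≠ j → f k ≠ f j := fun k hk h1 => hk (Sum.inl_injective (@hinj (Sum.inl k) (Sum.inl j) h1))
      have hgg : ∀ k, k ≠ j → g k ≠ g j := fun k hk h1 => hk (Sum.inr_injective (@hinj (Sum.inr k) (Sum.inr j) h1))
      have hfg' : ∀ k l, f k ≠ g l := fun k l h1 => absurd (@hinj (Sum.inl k) (Sum.inr l) h1) (by simp)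
      -- the value after a change of one paired index
      have hN0 : ∀ (s : ι → n) (b : ι) (e : n), (b = f j ∨ b = g j) → N (Function.update s b e) = N s := by
        intro s b e hb
        refine hN _ _ fun z hz => ?_
        refine Function.update_of_ne ?_ _ _
        rintro rfl
        rcases hb with h1 | h1
        · exact (hz j).1 h1
        · exact (hz j).2 h1
      have hMf : ∀ (s : ι → n) (e : n), M (Function.update s (f j) e) =
          if s (g j) = e ∧ ∀ k, k ≠ j → s (f k) = s (g k) then N s else 0 := by
        intro s e
        rw [hM, hN0 s (f j) e (Or.inl rfl)]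
        refine if_congr ?_ rfl rfl
        constructor
        · intro h1
          refine ⟨?_, fun k hk => ?_⟩
          · have := h1 j
            rw [Function.update_self, Function.update_of_ne hfg.symm] at this
            exact this.symm
          · have := h1 k
            rwa [Function.update_of_ne (hff k hk), Function.update_of_ne (hfg' j k).symm] at this
        · rintro ⟨h1, h2⟩ k
          by_cases hk : k = j
          · rw [hk, Function.update_self, Function.update_of_ne hfg.symm, h1]
          · rw [Function.update_of_ne (hff k hk), Function.update_of_ne (hfg' j k).symm]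
            exact h2 k hk
      have hMg : ∀ (s : ι → n) (e : n), M (Function.update s (g j) e) =
          if s (f j) = e ∧ ∀ k, k ≠ j → s (f k) = s (g k) then N s else 0 := by
        intro s e
        rw [hM, hN0 s (g j) e (Or.inr rfl)]
        refine if_congr ?_ rfl rfl
        constructor
        · intro h1
          refine ⟨?_, fun k hk => ?_⟩
          · have := h1 j
            rwa [Function.update_of_ne hfg, Function.update_self] at this
          · have := h1 k
            rwa [Function.update_of_ne (hfg' k j), Function.update_of_ne (hgg k hk)] at this
        · rintro ⟨h1, h2⟩ k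
          by_cases hk : k = j
          · rw [hk, Function.update_of_ne hfg, Function.update_self, h1]
          · rw [Function.update_of_ne (hfg' k j), Function.update_of_ne (hgg k hk)]
            exact h2 k hk
      funext s
      show lt8 i x c d M (f j) s + lt8 i x c d M (g j) s = 0
      unfold lt8
      rw [hlab j, hMf, hMf, hMg, hMg]
      by_cases hx : (i (f j)).1 = x
      · by_cases hb : (i (f j)).2 = true
        · simp only [hx, hb, if_true, Bool.not_true, Bool.false_eq_true, if_false]
          split_ifs <;> first | (exfalso; tauto) | simp
        · have hb' : (i (f j)).2 = false := by simpa using hb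
          simp only [hx, hb', if_true, Bool.not_false, Bool.false_eq_true, if_false]
          split_ifs <;> first | (exfalso; tauto) | simp
      · simp only [hx, if_false, add_zero]
    -- the sum
    rw [lie_eq8, ← Finset.sum_add_sum_compl (Finset.univ.image (Sum.elim f g))]
    have h0 : ∑ a ∈ Finset.univ.image (Sum.elim f g), lt8 i x c d M a = 0 := by
      rw [Finset.sum_image fun a _ b _ h1 => hinj h1, Fintype.sum_sum_type]
      simp only [Sum.elim_inl, Sum.elim_inr]
      rw [← Finset.sum_add_distrib]
      exact Finset.sum_eq_zero fun j _ => hpair j
    rw [h0, zero_add]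
    refine Submodule.sum_mem _ fun a ha => hfree a fun j => ?_
    rw [Finset.mem_compl, Finset.mem_image] at ha
    exact ⟨fun h1 => ha ⟨Sum.inl j, Finset.mem_univ _, h1.symm⟩, fun h1 => ha ⟨Sum.inr j, Finset.mem_univ _, h1.symm⟩⟩
  exact fun M hM => hle hM

end Pool.Agent.Helper8.KT
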